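import Pool.Agent.W682.TW.Stm2

set_option autoImplicit false

open scoped BigOperators Topology
open MeasureTheory

namespace Pool.Agent.W778.TW.Hom

open Pool.Agent.W682.TW

theorem tp_eq {m : ℕ} (A B : Mt m) : tp A B = ∑ i, ∑ a, A i a * B i a := by
  simp [tp, Matrix.trace, Matrix.mul_apply]

theorem tp_comm {m : ℕ} (A B : Mt m) : tp A B = tp B A := by
  rw [tp_eq, tp_eq]
  refine Finset.sum_congr rfl fun i _ => Finset.sum_congr rfl fun a _ => mul_comm _ _

theorem tp_nonneg {m : ℕ} (A : Mt m) : 0 ≤ tp A A := by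
  rw [tp_eq]
  exact Finset.sum_nonneg fun i _ => Finset.sum_nonneg fun a _ => mul_self_nonneg _

/-- the bilinear form tp -/
noncomputable def tpB (m : ℕ) : Mt m →ₗ[ℝ] Mt m →ₗ[ℝ] ℝ :=
  LinearMap.mk₂ ℝ (fun A B => tp A B)
    (fun A A' B => by simp [tp_eq, add_mul, Finset.sum_add_distrib])
    (fun c A B => by simp [tp_eq, Finset.mul_sum, mul_assoc, mul_add])
    (fun A B B' => by simp [tp_eq, mul_add, Finset.sum_add_distrib])
    (fun c A B => by simp [tp_eq, Finset.mul_sum, mul_left_comm, mul_add])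

theorem tpB_apply {m : ℕ} (A B : Mt m) : tpB m A B = tp A B := rfl

theorem expand {m : ℕ} (l : Mt m →ₗ[ℝ] ℝ) (X : Mt m) :
    l X = ∑ i, ∑ a, X i a * l (Matrix.single i a 1) := by
  conv_lhs => rw [Matrix.matrix_eq_sum_single X]
  rw [map_sum]
  refine Finset.sum_congr rfl fun i _ => ?_
  rw [map_sum]
  refine Finset.sum_congr rfl fun a _ => ?_
  have h : Matrix.single i a (X i a) = X i a • (Matrix.single i a (1 : ℝ) : Mt m) := by
    rw [Matrix.smul_single, smul_eq_mul, mul_one]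
  rw [h, map_smul, smul_eq_mul]

theorem lbound {m : ℕ} (l : Mt m →ₗ[ℝ] ℝ) : ∃ C : ℝ, 0 < C ∧ ∀ X, l X ^ 2 ≤ C * tp X X := by
  have hS : 0 ≤ ∑ p : Fin 2 × Fin m, l (Matrix.single p.1 p.2 1) ^ 2 :=
    Finset.sum_nonneg fun _ _ => sq_nonneg _
  refine ⟨(∑ p : Fin 2 × Fin m, l (Matrix.single p.1 p.2 1) ^ 2) + 1, by linarith, fun X => ?_⟩
  suffices h : l X ^ 2 ≤ (∑ p : Fin 2 × Fin m, l (Matrix.single p.1 p.2 1) ^ 2) * tp X X by
    have := tp_nonneg X
    nlinarith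
  have h1 : l X = ∑ p : Fin 2 × Fin m, X p.1 p.2 * l (Matrix.single p.1 p.2 1) := by
    rw [expand, Fintype.sum_prod_type]
  have h2 : tp X X = ∑ p : Fin 2 × Fin m, X p.1 p.2 ^ 2 := by
    rw [tp_eq, Fintype.sum_prod_type]
    refine Finset.sum_congr rfl fun i _ => Finset.sum_congr rfl fun a _ => (pow_two _).symm
  rw [h1, h2, mul_comm]
  exact Finset.sum_mul_sq_le_sq_mul_sq _ _ _

/-- representation of a positive definite form by a self-adjoint map -/
theorem rep {m : ℕ} (B : Mt m →ₗ[ℝ] Mt m →ₗ[ℝ] ℝ) (hs : ∀ X Y, B X Y = B Y X)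
    (hp : ∀ X, X ≠ 0 → 0 < B X X) :
    ∃ L : Mt m →ₗ[ℝ] Mt m, SPD L ∧ ∀ A C, tp A (L C) = B A C := by
  let L : Mt m →ₗ[ℝ] Mt m :=
    { toFun := fun C => Matrix.of fun i a => B (Matrix.single i a 1) C
      map_add' := fun C D => by ext i a; simp
      map_smul' := fun c C => by ext i a; simp }
  have key : ∀ A C, tp A (L C) = B A C := by
    intro A C
    have h := expand (B.flip C) A
    rw [tp_eq]
    change _ = B.flip C A
    rw [h]
    rfl
  refine ⟨L, ⟨fun A C => ?_, fun A hA => ?_⟩, key⟩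
  · rw [tp_comm (L A) C, key, key, hs]
  · rw [key]; exact hp A hA

/-- restriction to the first m columns -/
def Rr (m : ℕ) : Mt (m + 1) →ₗ[ℝ] Mt m where
  toFun H := Matrix.of fun i a => H i (Fin.castSucc a)
  map_add' _ _ := rfl
  map_smul' _ _ := rfl

/-- last column -/
def yy (m : ℕ) (i : Fin 2) : Mt (m + 1) →ₗ[ℝ] ℝ where
  toFun H := H i (Fin.last m)
  map_add' _ _ := rfl
  map_smul' _ _ := rfl

theorem Rr_apply {m : ℕ} (H : Mt (m + 1)) (i : Fin 2) (a : Fin m) :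
    Rr m H i a = H i (Fin.castSucc a) := rfl

theorem yy_apply {m : ℕ} (H : Mt (m + 1)) (i : Fin 2) : yy m i H = H i (Fin.last m) := rfl

theorem eq_zero_of {m : ℕ} (H : Mt (m + 1)) (h1 : Rr m H = 0) (h2 : ∀ i, yy m i H = 0) :
    H = 0 := by
  ext i j
  refine Fin.lastCases ?_ (fun a => ?_) j
  · exact h2 i
  · have := congrFun (congrFun h1 i) a
    exact this

/-- the extended form -/
noncomputable def Bx {m : ℕ} (B : Mt m →ₗ[ℝ] Mt m →ₗ[ℝ] ℝ) (l : Mt m →ₗ[ℝ] ℝ) (c η K : ℝ) :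
    Mt (m + 1) →ₗ[ℝ] Mt (m + 1) →ₗ[ℝ] ℝ :=
  LinearMap.mk₂ ℝ (fun H G => B (Rr m H) (Rr m G) +
      (1 / 2) * (yy m 0 H * l (Rr m G) + yy m 0 G * l (Rr m H)) + c * (yy m 0 H * yy m 0 G) +
      η * tpB m (Rr m H) (Rr m G) + K * (yy m 0 H * yy m 0 G + yy m 1 H * yy m 1 G))
    (fun A A' B => by simp only [map_add, LinearMap.add_apply]; ring)
    (fun c A B => by simp only [map_smul, LinearMap.smul_apply, smul_eq_mul]; ring)
    (fun A B B' => by simp only [map_add]; ring)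
    (fun c A B => by simp only [map_smul, smul_eq_mul]; ring)

theorem Bx_apply {m : ℕ} (B : Mt m →ₗ[ℝ] Mt m →ₗ[ℝ] ℝ) (l : Mt m →ₗ[ℝ] ℝ) (c η K : ℝ)
    (H G : Mt (m + 1)) : Bx B l c η K H G = B (Rr m H) (Rr m G) +
      (1 / 2) * (yy m 0 H * l (Rr m G) + yy m 0 G * l (Rr m H)) + c * (yy m 0 H * yy m 0 G) +
      η * tp (Rr m H) (Rr m G) + K * (yy m 0 H * yy m 0 G + yy m 1 H * yy m 1 G) := rfl

theorem Bx_self {m : ℕ} (B : Mt m →ₗ[ℝ] Mt m →ₗ[ℝ] ℝ) (l : Mt m →ₗ[ℝ] ℝ) (c η K : ℝ)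
    (H : Mt (m + 1)) : Bx B l c η K H H = B (Rr m H) (Rr m H) +
      yy m 0 H * l (Rr m H) + c * yy m 0 H ^ 2 +
      η * tp (Rr m H) (Rr m H) + K * (yy m 0 H ^ 2 + yy m 1 H ^ 2) := by
  rw [Bx_apply]; ring

theorem young {z l t C η : ℝ} (hη : 0 < η) (hC : 0 < C) (hl : l ^ 2 ≤ C * t) :
    0 ≤ z * l + η * t + C / (4 * η) * z ^ 2 := by
  have e : (z * l + η * t + C / (4 * η) * z ^ 2) * (4 * η * C) =
      4 * η * C * (z * l) + 4 * η ^ 2 * (C * t) + C ^ 2 * z ^ 2 := by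
    field_simp
  have h1 : 0 ≤ (z * l + η * t + C / (4 * η) * z ^ 2) * (4 * η * C) := by
    rw [e]
    have h2 : 4 * η ^ 2 * l ^ 2 ≤ 4 * η ^ 2 * (C * t) :=
      mul_le_mul_of_nonneg_left hl (by positivity)
    nlinarith [sq_nonneg (2 * η * l + C * z)]
  exact nonneg_of_mul_nonneg_left h1 (by positivity)

theorem young2 {z c d : ℝ} (hd : 0 < d) : 0 ≤ 2 * c * z + d + c ^ 2 / d * z ^ 2 := by
  have e : (2 * c * z + d + c ^ 2 / d * z ^ 2) * d = (d + c * z) ^ 2 := by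
    field_simp
    ring
  have h1 : 0 ≤ (2 * c * z + d + c ^ 2 / d * z ^ 2) * d := by
    rw [e]; exact sq_nonneg _
  exact nonneg_of_mul_nonneg_left h1 hd

/-- extension by zero of the last component -/
def Ex (m : ℕ) : (Fin m → ℝ) →L[ℝ] (Fin (m + 1) → ℝ) :=
  ContinuousLinearMap.pi fun j : Fin (m + 1) =>
    if h : j.val < m then ContinuousLinearMap.proj (R := ℝ) (φ := fun _ : Fin m => ℝ) ⟨j.val, h⟩
    else 0

theorem Ex_cast {m : ℕ} (w : Fin m → ℝ) (a : Fin m) : Ex m w (Fin.castSucc a) = w a := by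
  simp [Ex]

theorem Ex_last {m : ℕ} (w : Fin m → ℝ) : Ex m w (Fin.last m) = 0 := by
  simp [Ex]

theorem posdef {m : ℕ} {B : Mt m →ₗ[ℝ] Mt m →ₗ[ℝ] ℝ} (hp : ∀ X, X ≠ 0 → 0 < B X X)
    {l : Mt m →ₗ[ℝ] ℝ} {c η K C : ℝ} (hη : 0 < η) (hC : 0 < C)
    (hl : ∀ X, l X ^ 2 ≤ C * tp X X) (hK : |c| + C / (4 * η) < K)
    (H : Mt (m + 1)) (hH : H ≠ 0) : 0 < Bx B l c η K H H := by
  rw [Bx_self]
  have hy := young (z := yy m 0 H) hη hC (hl (Rr m H))
  have hc := neg_abs_le c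
  have hB : 0 ≤ B (Rr m H) (Rr m H) := by
    by_cases h : Rr m H = 0
    · rw [h, map_zero]
    · exact (hp _ h).le
  have hK0 : 0 < K := by
    have h1 := abs_nonneg c
    have h2 : 0 < C / (4 * η) := by positivity
    linarith
  have h5 : B (Rr m H) (Rr m H) + (K - |c| - C / (4 * η)) * yy m 0 H ^ 2 + K * yy m 1 H ^ 2 ≤
      B (Rr m H) (Rr m H) + yy m 0 H * l (Rr m H) + c * yy m 0 H ^ 2 +
      η * tp (Rr m H) (Rr m H) + K * (yy m 0 H ^ 2 + yy m 1 H ^ 2) := by
    have h6 : -|c| * yy m 0 H ^ 2 ≤ c * yy m 0 H ^ 2 :=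
      mul_le_mul_of_nonneg_right hc (sq_nonneg _)
    nlinarith
  refine lt_of_lt_of_le ?_ h5
  have hk1 : 0 < K - |c| - C / (4 * η) := by linarith
  by_cases h : Rr m H = 0
  · have h7 : yy m 0 H ≠ 0 ∨ yy m 1 H ≠ 0 := by
      by_contra hcon
      push Not at hcon
      refine hH (eq_zero_of H h fun i => ?_)
      fin_cases i
      · exact hcon.1
      · exact hcon.2
    rcases h7 with h7 | h7
    · have : 0 < yy m 0 H ^ 2 := by positivity
      have h8 := mul_pos hk1 this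
      have h9 := mul_nonneg hK0.le (sq_nonneg (yy m 1 H))
      linarith
    · have : 0 < yy m 1 H ^ 2 := by positivity
      have h8 := mul_pos hK0 this
      have h9 := mul_nonneg hk1.le (sq_nonneg (yy m 0 H))
      linarith
  · have h8 := hp _ h
    have h9 := mul_nonneg hk1.le (sq_nonneg (yy m 0 H))
    have h10 := mul_nonneg hK0.le (sq_nonneg (yy m 1 H))
    linarith

theorem lower {m : ℕ} {B : Mt m →ₗ[ℝ] Mt m →ₗ[ℝ] ℝ}
    {l : Mt m →ₗ[ℝ] ℝ} {c η K C d : ℝ} (hη : 0 < η) (hC : 0 < C) (hd : 0 < d)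
    (hl : ∀ X, l X ^ 2 ≤ C * tp X X) (hK : |c| + C / (4 * η) + c ^ 2 / d ≤ K)
    (H : Mt (m + 1)) : B (Rr m H) (Rr m H) + l (Rr m H) + c +
      (K * (1 + 2 * (yy m 0 H - 1)) - d) ≤ Bx B l c η K H H := by
  rw [Bx_self]
  have hy := young (z := yy m 0 H - 1) hη hC (hl (Rr m H))
  have hy2 := young2 (z := yy m 0 H - 1) (c := c) hd
  have hc := neg_abs_le c
  have h6 : -|c| * (yy m 0 H - 1) ^ 2 ≤ c * (yy m 0 H - 1) ^ 2 :=
    mul_le_mul_of_nonneg_right hc (sq_nonneg _)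
  have hK0 : 0 ≤ K := by
    have h1 := abs_nonneg c
    have h2 : 0 < C / (4 * η) := by positivity
    have h3 : 0 ≤ c ^ 2 / d := by positivity
    linarith
  have h7 : (|c| + C / (4 * η) + c ^ 2 / d) * (yy m 0 H - 1) ^ 2 ≤ K * (yy m 0 H - 1) ^ 2 :=
    mul_le_mul_of_nonneg_right hK (sq_nonneg _)
  have h8 := mul_nonneg hK0 (sq_nonneg (yy m 1 H))
  nlinarith

theorem main : S_HOM := by
  rintro ⟨m, Q₀, Q₁, g, F, u, ⟨B₀, l₀, c₀, hs₀, hp₀, hQ₀⟩, ⟨B₁, l₁, c₁, hs₁, hp₁, hQ₁⟩, hg, hgQ,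
    hu, hlt⟩
  obtain ⟨C₀, hC₀, hl₀⟩ := lbound l₀
  obtain ⟨C₁, hC₁, hl₁⟩ := lbound l₁
  set I := ∫ x in cube, tp (F + gr u x) (F + gr u x) with hI
  have hI0 : 0 ≤ I := integral_nonneg fun x => tp_nonneg _
  set J := ∫ x in cube, min (Q₀ (F + gr u x)) (Q₁ (F + gr u x)) with hJ
  set d := (g F - J) / 3 with hd
  have hd0 : 0 < d := by rw [hd]; linarith
  set η := d / (I + 1) with hη
  have hη0 : 0 < η := by rw [hη]; positivity
  have hηI : η * I ≤ d := by
    have h1 : η * (I + 1) = d := by rw [hη]; field_simp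
    nlinarith
  set K := (|c₀| + C₀ / (4 * η) + c₀ ^ 2 / d) + (|c₁| + C₁ / (4 * η) + c₁ ^ 2 / d) + 1 with hK
  have a0 : 0 ≤ |c₀| + C₀ / (4 * η) := by positivity
  have a1 : 0 ≤ |c₁| + C₁ / (4 * η) := by positivity
  have b0 : 0 ≤ c₀ ^ 2 / d := by positivity
  have b1 : 0 ≤ c₁ ^ 2 / d := by positivity
  obtain ⟨L₁, hL₁, hk₁⟩ := rep (Bx B₀ l₀ c₀ η K) (by
    intro X Y
    rw [Bx_apply, Bx_apply, hs₀ (Rr m X) (Rr m Y), tp_comm (Rr m X) (Rr m Y)]
    ring) (posdef hp₀ hη0 hC₀ hl₀ (by linarith))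
  obtain ⟨L₂, hL₂, hk₂⟩ := rep (Bx B₁ l₁ c₁ η K) (by
    intro X Y
    rw [Bx_apply, Bx_apply, hs₁ (Rr m X) (Rr m Y), tp_comm (Rr m X) (Rr m Y)]
    ring) (posdef hp₁ hη0 hC₁ hl₁ (by linarith))
  let Fx : Mt (m + 1) := Matrix.of fun i => Fin.snoc (F i) (if i = 0 then (1 : ℝ) else 0)
  let ux : (Fin 2 → ℝ) → (Fin (m + 1) → ℝ) := fun x => Ex m (u x)
  have hgr : ∀ x i j, gr ux x i j = Ex m (fun a => gr u x i a) j := by
    intro x i j
    have hdiff : DifferentiableAt ℝ u x := hu.1.differentiable (by simp) x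
    have h1 : fderiv ℝ ux x = (Ex m).comp (fderiv ℝ u x) :=
      ((Ex m).hasFDerivAt.comp x hdiff.hasFDerivAt).fderiv
    change fderiv ℝ ux x (Pi.single i (1 : ℝ)) j = _
    rw [h1]
    rfl
  have hR : ∀ x, Rr m (Fx + gr ux x) = F + gr u x := by
    intro x
    ext i a
    rw [Rr_apply, Matrix.add_apply, hgr, Ex_cast, Matrix.add_apply]
    congr 1
    simp [Fx]
  have hy0 : ∀ x, yy m 0 (Fx + gr ux x) = 1 := by
    intro x
    rw [yy_apply, Matrix.add_apply, hgr, Ex_last]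
    simp [Fx]
  have hy1 : ∀ x, yy m 1 (Fx + gr ux x) = 0 := by
    intro x
    rw [yy_apply, Matrix.add_apply, hgr, Ex_last]
    simp [Fx]
  have hRF : Rr m Fx = F := by
    ext i a
    simp [Rr_apply, Fx]
  have hyF : yy m 0 Fx = 1 := by
    rw [yy_apply]
    simp [Fx]
  refine ⟨m + 1, L₁, L₂, fun H => g (Rr m H) + (K * (1 + 2 * (yy m 0 H - 1)) - d), Fx, ux,
    by omega, hL₁, hL₂, ?_, ?_, ?_, ⟨?_, ?_⟩, ?_⟩
  · intro A a b
    have h1 := hg (Rr m A) a (fun j => b (Fin.castSucc j))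
    have h2 : ∀ t : ℝ, Rr m (A + t • Matrix.vecMulVec a b) =
        Rr m A + t • Matrix.vecMulVec a (fun j => b (Fin.castSucc j)) := by
      intro t
      rw [map_add, map_smul]
      rfl
    have h3 : ∀ t : ℝ, yy m 0 (A + t • Matrix.vecMulVec a b) =
        yy m 0 A + t * yy m 0 (Matrix.vecMulVec a b) := by
      intro t
      rw [map_add, map_smul, smul_eq_mul]
    refine ⟨convex_univ, fun x _ y _ s t hs ht hst => ?_⟩
    have h4 := h1.2 (Set.mem_univ x) (Set.mem_univ y) hs ht hst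
    simp only [h2, h3, smul_eq_mul] at h4 ⊢
    have hs' : s = 1 - t := by linarith
    subst hs'
    nlinarith
  · intro H
    rw [hk₁]
    have h1 := lower (B := B₀) (c := c₀) (H := H) hη0 hC₀ hd0 hl₀ (K := K) (by linarith)
    have h2 := (hgQ (Rr m H)).trans (min_le_left _ _)
    rw [hQ₀] at h2
    change g (Rr m H) + _ ≤ _
    linarith
  · intro H
    rw [hk₂]
    have h1 := lower (B := B₁) (c := c₁) (H := H) hη0 hC₁ hd0 hl₁ (K := K) (by linarith)
    have h2 := (hgQ (Rr m H)).trans (min_le_right _ _)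
    rw [hQ₁] at h2
    change g (Rr m H) + _ ≤ _
    linarith
  · exact (Ex m).contDiff.comp hu.1
  · intro x z
    change Ex m (u _) = Ex m (u _)
    rw [hu.2]
  · have hcont : Continuous fun x => F + gr u x := by
      refine continuous_const.add ?_
      refine continuous_pi fun i => continuous_pi fun a => ?_
      have h1 : Continuous (fderiv ℝ u) := hu.1.continuous_fderiv (by simp)
      exact (continuous_apply a).comp (h1.clm_apply continuous_const)
    have htp : Continuous fun X : Mt m => tp X X := by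
      have : (fun X : Mt m => tp X X) = fun X => ∑ i, ∑ a, X i a * X i a := by
        funext X; exact tp_eq X X
      rw [this]
      fun_prop
    have hQc : ∀ (B : Mt m →ₗ[ℝ] Mt m →ₗ[ℝ] ℝ) (l : Mt m →ₗ[ℝ] ℝ) (c : ℝ),
        Continuous fun X : Mt m => B X X + l X + c := by
      intro B l c
      have hB : Continuous fun X : Mt m => B X X := by
        have h1 : (fun X : Mt m => B X X) = fun X => ∑ i, ∑ a, X i a * B X (Matrix.single i a 1) := by
          funext X; exact expand (B X) X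
        rw [h1]
        refine continuous_finsetSum _ fun i _ => continuous_finsetSum _ fun a _ => ?_
        refine Continuous.mul ?_ ?_
        · fun_prop
        · exact (B.flip (Matrix.single i a 1)).continuous_of_finiteDimensional
      exact (hB.add l.continuous_of_finiteDimensional).add continuous_const
    have hcube : IsCompact cube := isCompact_univ_pi fun _ => isCompact_Icc
    have hvol : volume cube = 1 := by
      rw [cube, Set.pi_univ_Icc, Real.volume_Icc_pi]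
      simp
    have hvol' : (volume : Measure (Fin 2 → ℝ)).real cube = 1 := by
      rw [Measure.real, hvol]; simp
    have hmin : Continuous fun x => min (Q₀ (F + gr u x)) (Q₁ (F + gr u x)) := by
      refine Continuous.min ?_ ?_
      · have h1 := (hQc B₀ l₀ c₀).comp hcont
        refine h1.congr fun x => ?_
        exact (hQ₀ _).symm
      · have h1 := (hQc B₁ l₁ c₁).comp hcont
        refine h1.congr fun x => ?_
        exact (hQ₁ _).symm
    have e1 : ∀ x, min (tp (Fx + gr ux x) (L₁ (Fx + gr ux x)))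
        (tp (Fx + gr ux x) (L₂ (Fx + gr ux x))) =
        min (Q₀ (F + gr u x)) (Q₁ (F + gr u x)) +
          (η * tp (F + gr u x) (F + gr u x) + K) := by
      intro x
      rw [hk₁, hk₂, Bx_self, Bx_self, hR, hy0, hy1, ← min_add_add_right, hQ₀, hQ₁]
      congr 1 <;> ring
    have i1 : IntegrableOn (fun x => min (Q₀ (F + gr u x)) (Q₁ (F + gr u x))) cube :=
      hmin.continuousOn.integrableOn_compact hcube
    have i2 : IntegrableOn (fun x => η * tp (F + gr u x) (F + gr u x)) cube :=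
      (continuous_const.mul (htp.comp hcont)).continuousOn.integrableOn_compact hcube
    have i3 : IntegrableOn (fun _ : Fin 2 → ℝ => K) cube :=
      continuous_const.continuousOn.integrableOn_compact hcube
    have i4 : IntegrableOn (fun x => η * tp (F + gr u x) (F + gr u x) + K) cube := i2.add i3
    have e2 : (∫ x in cube, min (tp (Fx + gr ux x) (L₁ (Fx + gr ux x)))
        (tp (Fx + gr ux x) (L₂ (Fx + gr ux x)))) = J + (η * I + K) := by
      simp_rw [e1]
      rw [integral_add i1 i4, integral_add i2 i3, integral_const_mul, setIntegral_const,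
        hvol', one_smul]
    rw [e2]
    change _ < g (Rr m Fx) + (K * (1 + 2 * (yy m 0 Fx - 1)) - d)
    rw [hRF, hyF]
    have h3 : 3 * d = g F - J := by rw [hd]; ring
    linarith

end Pool.Agent.W778.TW.Hom
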